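import Pool.Agent.R763.StrFF

/-!
# Perimeter bisecting points of convex curves: the cone measure
-/

set_option autoImplicit false

open Set MeasureTheory Filter Topology
open scoped ENNReal NNReal

namespace Pool.Agent.N545.KL

open Pool.Agent.R763.Str

lemma inner_eq (u x : E2) : inner ℝ u x = u 0 * x 0 + u 1 * x 1 := by
  rw [PiLp.inner_apply, Fin.sum_univ_two]
  simp [mul_comm]

lemma measurableSet_pos (u : E2) : MeasurableSet {x : E2 | 0 < inner ℝ u x} :=
  (isOpen_lt continuous_const (by fun_prop)).measurableSet

lemma measurableSet_neg (u : E2) : MeasurableSet {x : E2 | inner ℝ u x < 0} :=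
  (isOpen_lt (by fun_prop) continuous_const).measurableSet

lemma measurableSet_zero (u : E2) : MeasurableSet {x : E2 | inner ℝ u x = 0} :=
  (isClosed_eq (by fun_prop) continuous_const).measurableSet

/-- A finite measure `ν` on the plane that does not charge lines through `0` and gives the same mass
to opposite half-planes gives the same mass to `B` and `-B`, for every measurable cone `B`. -/
theorem cone_symm (ν : Measure E2) [IsFiniteMeasure ν]
    (hline : ∀ u : E2, u ≠ 0 → ν {x | inner ℝ u x = 0} = 0)
    (hhalf : ∀ u : E2, u ≠ 0 → ν {x | 0 < inner ℝ u x} = ν {x | inner ℝ u x < 0})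
    (B : Set E2) (hB : MeasurableSet B) (hcone : ∀ t : ℝ, 0 < t → ∀ x ∈ B, t • x ∈ B) :
    ν B = ν {x | -x ∈ B} := by
  set V : Set E2 := {x | 0 < x 1} with hV
  set V' : Set E2 := {x | x 1 < 0} with hV'
  set e1 : E2 := !₂[0, 1] with he1
  have he1n : e1 ≠ 0 := by
    intro h
    have := congrArg (fun p : E2 => p 1) h
    simp [he1] at this
  have hVe : V = {x | 0 < inner ℝ e1 x} := by
    ext x; simp [hV, inner_eq, he1]
  have hVe' : V' = {x | inner ℝ e1 x < 0} := by
    ext x; simp [hV', inner_eq, he1]
  have hVm : MeasurableSet V := hVe ▸ measurableSet_pos e1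
  have hVm' : MeasurableSet V' := hVe' ▸ measurableSet_neg e1
  set τ : E2 → ℝ := fun x => x 0 / x 1 with hτ
  have hτm : Measurable τ := by
    have h0 : Measurable fun x : E2 => x 0 := (show Continuous fun x : E2 => x 0 by fun_prop).measurable
    have h1 : Measurable fun x : E2 => x 1 := (show Continuous fun x : E2 => x 1 by fun_prop).measurable
    exact h0.div h1
  have hm : (ν.restrict V).map τ = (ν.restrict V').map τ := by
    apply Measure.ext_of_Iic
    intro a
    rw [Measure.map_apply hτm measurableSet_Iic, Measure.map_apply hτm measurableSet_Iic,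
      Measure.restrict_apply (hτm measurableSet_Iic), Measure.restrict_apply (hτm measurableSet_Iic)]
    set u : E2 := !₂[-1, a] with hu
    have hun : u ≠ 0 := by
      intro h
      have := congrArg (fun p : E2 => p 0) h
      simp [hu] at this
    have hin : ∀ x : E2, inner ℝ u x = a * x 1 - x 0 := by
      intro x; rw [inner_eq]; simp [hu]; ring
    set P : Set E2 := {x | 0 < inner ℝ u x} with hP
    set N : Set E2 := {x | inner ℝ u x < 0} with hN
    set Z : Set E2 := {x | inner ℝ u x = 0} with hZ
    have hZ0 : ν Z = 0 := hline u hun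
    have hPm : MeasurableSet P := measurableSet_pos u
    have hNm : MeasurableSet N := measurableSet_neg u
    -- the two sectors
    have hA : ν (τ ⁻¹' Iic a ∩ V) = ν (V ∩ P) := by
      apply le_antisymm
      · have : τ ⁻¹' Iic a ∩ V ⊆ (V ∩ P) ∪ Z := by
          rintro x ⟨hx1, hx2⟩
          simp only [hτ, mem_preimage, mem_Iic] at hx1
          have hx3 : (0:ℝ) < x 1 := hx2
          rw [div_le_iff₀ hx3] at hx1
          rcases eq_or_lt_of_le hx1 with h | h
          · right; show inner ℝ u x = 0; rw [hin]; linarith
          · left; exact ⟨hx2, by show 0 < inner ℝ u x; rw [hin]; linarith⟩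
        refine (measure_mono this).trans ((measure_union_le _ _).trans ?_)
        rw [hZ0, add_zero]
      · apply measure_mono
        rintro x ⟨hx1, hx2⟩
        have hx3 : (0:ℝ) < x 1 := hx1
        refine ⟨?_, hx1⟩
        simp only [hτ, mem_preimage, mem_Iic]
        rw [div_le_iff₀ hx3]
        have : 0 < inner ℝ u x := hx2
        rw [hin] at this
        linarith
    have hA' : ν (τ ⁻¹' Iic a ∩ V') = ν (V' ∩ N) := by
      apply le_antisymm
      · have : τ ⁻¹' Iic a ∩ V' ⊆ (V' ∩ N) ∪ Z := by
          rintro x ⟨hx1, hx2⟩
          simp only [hτ, mem_preimage, mem_Iic] at hx1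
          have hx3 : x 1 < 0 := hx2
          rw [div_le_iff_of_neg hx3] at hx1
          rcases eq_or_lt_of_le hx1 with h | h
          · right; show inner ℝ u x = 0; rw [hin]; linarith
          · left; exact ⟨hx2, by show inner ℝ u x < 0; rw [hin]; linarith⟩
        refine (measure_mono this).trans ((measure_union_le _ _).trans ?_)
        rw [hZ0, add_zero]
      · apply measure_mono
        rintro x ⟨hx1, hx2⟩
        have hx3 : x 1 < 0 := hx1
        refine ⟨?_, hx1⟩
        simp only [hτ, mem_preimage, mem_Iic]
        rw [div_le_iff_of_neg hx3]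
        have : inner ℝ u x < 0 := hx2
        rw [hin] at this
        linarith
    rw [hA, hA']
    have hE : ν {x : E2 | inner ℝ e1 x = 0} = 0 := hline e1 he1n
    -- splitting
    have sp1 : ∀ W : Set E2, ν W = ν (W ∩ P) + ν (W ∩ N) := by
      intro W
      have h1 : ν (W \ P) = ν (W ∩ N) := by
        apply le_antisymm
        · have : W \ P ⊆ (W ∩ N) ∪ Z := by
            rintro x ⟨hx1, hx2⟩
            have h3 : ¬ 0 < inner ℝ u x := hx2
            push Not at h3
            rcases eq_or_lt_of_le h3 with h | h
            · right; exact h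
            · left; exact ⟨hx1, h⟩
          refine (measure_mono this).trans ((measure_union_le _ _).trans ?_)
          rw [hZ0, add_zero]
        · apply measure_mono
          rintro x ⟨hx1, hx2⟩
          refine ⟨hx1, fun h => ?_⟩
          have h3 : inner ℝ u x < 0 := hx2
          have h4 : 0 < inner ℝ u x := h
          linarith
      rw [← h1]
      exact (measure_inter_add_sdiff W hPm).symm
    have sp2 : ∀ W : Set E2, ν W = ν (V ∩ W) + ν (V' ∩ W) := by
      intro W
      have h1 : ν (W \ V) = ν (V' ∩ W) := by
        apply le_antisymm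
        · have : W \ V ⊆ (V' ∩ W) ∪ {x : E2 | inner ℝ e1 x = 0} := by
            rintro x ⟨hx1, hx2⟩
            have h3 : ¬ 0 < x 1 := hx2
            push Not at h3
            rcases eq_or_lt_of_le h3 with h | h
            · right; show inner ℝ e1 x = 0; rw [inner_eq]; simp [he1, h]
            · left; exact ⟨h, hx1⟩
          refine (measure_mono this).trans ((measure_union_le _ _).trans ?_)
          rw [hE, add_zero]
        · apply measure_mono
          rintro x ⟨hx1, hx2⟩
          refine ⟨hx2, fun h => ?_⟩
          have h3 : x 1 < 0 := hx1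
          have h4 : 0 < x 1 := h
          linarith
      rw [← h1, inter_comm V W]
      exact (measure_inter_add_sdiff W hVm).symm
    have q1 : ν V = ν V' := by rw [hVe, hVe']; exact hhalf e1 he1n
    have q2 : ν P = ν N := hhalf u hun
    have q3 := sp1 V
    have q4 := sp1 V'
    have q5 := sp2 P
    have q6 := sp2 N
    -- pass to real numbers
    have r : ∀ W : Set E2, ν W ≠ ∞ := fun W => measure_ne_top ν W
    have toR : ∀ A B C : Set E2, ν A = ν B + ν C → (ν A).toReal = (ν B).toReal + (ν C).toReal := by
      intro A B C h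
      rw [h, ENNReal.toReal_add (r B) (r C)]
    have w3 := toR _ _ _ q3
    have w4 := toR _ _ _ q4
    have w5 := toR _ _ _ q5
    have w6 := toR _ _ _ q6
    have w1 : (ν V).toReal = (ν V').toReal := by rw [q1]
    have w2 : (ν P).toReal = (ν N).toReal := by rw [q2]
    have : (ν (V ∩ P)).toReal = (ν (V' ∩ N)).toReal := by linarith
    exact (ENNReal.toReal_eq_toReal_iff' (r _) (r _)).1 this
  -- cones
  have key : ∀ B : Set E2, MeasurableSet B → (∀ t : ℝ, 0 < t → ∀ x ∈ B, t • x ∈ B) →
      ν (B ∩ V) = ν ({x | -x ∈ B} ∩ V') := by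
    intro B hB hcone
    set T : Set ℝ := {t | (!₂[t, 1] : E2) ∈ B} with hT
    have hTm : MeasurableSet T := by
      have : Measurable fun t : ℝ => (!₂[t, 1] : E2) := by
        apply Continuous.measurable
        fun_prop
      exact this hB
    have h1 : ν (B ∩ V) = (ν.restrict V).map τ T := by
      rw [Measure.map_apply hτm hTm, Measure.restrict_apply (hτm hTm)]
      congr 1
      ext x
      constructor
      · rintro ⟨hx1, hx2⟩
        have hx3 : (0:ℝ) < x 1 := hx2
        refine ⟨?_, hx2⟩
        show (!₂[x 0 / x 1, 1] : E2) ∈ B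
        have := hcone (x 1)⁻¹ (inv_pos.2 hx3) x hx1
        convert this using 1
        ext i; fin_cases i
        · simp [div_eq_inv_mul]
        · simp [hx3.ne']
      · rintro ⟨hx1, hx2⟩
        have hx3 : (0:ℝ) < x 1 := hx2
        refine ⟨?_, hx2⟩
        have hx4 : (!₂[x 0 / x 1, 1] : E2) ∈ B := hx1
        have := hcone (x 1) hx3 _ hx4
        convert this using 1
        ext i; fin_cases i
        · simp [hx3.ne', mul_div_cancel₀]
        · simp
    have h2 : ν ({x | -x ∈ B} ∩ V') = (ν.restrict V').map τ T := by
      rw [Measure.map_apply hτm hTm, Measure.restrict_apply (hτm hTm)]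
      congr 1
      ext x
      constructor
      · rintro ⟨hx1, hx2⟩
        have hx3 : x 1 < 0 := hx2
        refine ⟨?_, hx2⟩
        show (!₂[x 0 / x 1, 1] : E2) ∈ B
        have hx1' : -x ∈ B := hx1
        have := hcone (-(x 1))⁻¹ (inv_pos.2 (by linarith)) _ hx1'
        convert this using 1
        ext i; fin_cases i
        · simp only [Fin.zero_eta, Matrix.cons_val_zero, PiLp.smul_apply,
            PiLp.neg_apply, smul_eq_mul]
          have := hx3.ne
          field_simp
        · simp only [Fin.mk_one, Matrix.cons_val_one, PiLp.smul_apply,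
            PiLp.neg_apply, smul_eq_mul, Matrix.cons_val_fin_one]
          have := hx3.ne
          field_simp
      · rintro ⟨hx1, hx2⟩
        have hx3 : x 1 < 0 := hx2
        refine ⟨?_, hx2⟩
        have hx4 : (!₂[x 0 / x 1, 1] : E2) ∈ B := hx1
        have := hcone (-(x 1)) (by linarith) _ hx4
        show -x ∈ B
        convert this using 1
        ext i; fin_cases i
        · simp only [Fin.zero_eta, Matrix.cons_val_zero, PiLp.smul_apply,
            PiLp.neg_apply, smul_eq_mul]
          have := hx3.ne
          field_simp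
        · simp
    rw [h1, h2, hm]
  have hE : ν {x : E2 | inner ℝ e1 x = 0} = 0 := hline e1 he1n
  have split : ∀ W : Set E2, ν W = ν (W ∩ V) + ν (W ∩ V') := by
    intro W
    have h1 : ν (W \ V) = ν (W ∩ V') := by
      apply le_antisymm
      · have : W \ V ⊆ (W ∩ V') ∪ {x : E2 | inner ℝ e1 x = 0} := by
          rintro x ⟨hx1, hx2⟩
          have h3 : ¬ 0 < x 1 := hx2
          push Not at h3
          rcases eq_or_lt_of_le h3 with h | h
          · right; show inner ℝ e1 x = 0; rw [inner_eq]; simp [he1, h]
          · left; exact ⟨hx1, h⟩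
        refine (measure_mono this).trans ((measure_union_le _ _).trans ?_)
        rw [hE, add_zero]
      · apply measure_mono
        rintro x ⟨hx1, hx2⟩
        refine ⟨hx1, fun h => ?_⟩
        have h3 : x 1 < 0 := hx2
        have h4 : 0 < x 1 := h
        linarith
    rw [← h1]
    exact (measure_inter_add_sdiff W hVm).symm
  have hB' : MeasurableSet {x : E2 | -x ∈ B} := measurable_neg hB
  have hcone' : ∀ t : ℝ, 0 < t → ∀ x ∈ {x : E2 | -x ∈ B}, t • x ∈ {x : E2 | -x ∈ B} := by
    intro t ht x hx
    have := hcone t ht _ hx
    simpa using this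
  have k1 := key B hB hcone
  have k2 := key _ hB' hcone'
  have e2 : {x : E2 | -x ∈ {x : E2 | -x ∈ B}} = B := by
    ext x; simp
  rw [e2] at k2
  rw [split B, split {x : E2 | -x ∈ B}, k1, k2, add_comm]

end Pool.Agent.N545.KL
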