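import Pool.Agent.N545.KL.Cone

/-!
# Perimeter bisecting points of convex curves
-/

set_option autoImplicit false

open Set MeasureTheory Filter Topology
open scoped ENNReal NNReal

namespace Pool.Agent.N545.KL

open Pool.Agent.R763.Str

theorem integral_lt {f g : ℝ → ℝ} (hf : Continuous f) (hg : Continuous g)
    (pf : ∀ θ, f (θ + 2 * Real.pi) = f θ) (pg : ∀ θ, g (θ + 2 * Real.pi) = g θ)
    (hle : ∀ θ, f θ ≤ g θ) (hlt : ∃ θ, f θ < g θ) :
    ∫ θ in (0:ℝ)..(2 * Real.pi), f θ < ∫ θ in (0:ℝ)..(2 * Real.pi), g θ := by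
  have hpi := Real.pi_pos
  obtain ⟨θ₁, hθ₁⟩ := hlt
  have hp : Function.Periodic (fun θ => g θ - f θ) (2 * Real.pi) := by
    intro θ; simp only [pf, pg]
  obtain ⟨θ₀, hθ₀, he⟩ := hp.exists_mem_Ico₀ (by positivity) θ₁
  rw [← sub_pos, ← intervalIntegral.integral_sub (hg.intervalIntegrable _ _)
    (hf.intervalIntegrable _ _)]
  apply intervalIntegral.integral_pos (by positivity)
  · exact (hg.sub hf).continuousOn
  · intro t _
    exact sub_nonneg.2 (hle t)
  · refine ⟨θ₀, Ico_subset_Icc_self hθ₀, ?_⟩
    rw [← he]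
    exact sub_pos.2 hθ₁

theorem eq_of_W {F R : Set E2} (hF : IsCompact F) (hc : Convex ℝ F) (hne : F.Nonempty)
    (hR : IsCompact R) (hFR : F ⊆ R) (hW : W R ≤ W F) : F = R := by
  apply Subset.antisymm hFR
  intro x hx
  by_contra hxF
  rw [mem_iff hF hc hne] at hxF
  push Not at hxF
  obtain ⟨θ, hθ⟩ := hxF
  have : W F < W R := by
    apply integral_lt (hs_continuous hF hne) (hs_continuous hR (hne.mono hFR)) (hs_periodic F)
      (hs_periodic R) (fun θ => hs_mono hF hne hR hFR θ)
    exact ⟨θ, hθ.trans_le (le_hs hR hx θ)⟩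
  linarith

variable {K : Set E2}

/-- A line through the interior point `0` meets the boundary in a null set. -/
theorem line_null (hK : IsCompact K) (hc : Convex ℝ K) (h0 : (0 : E2) ∈ interior K) (u : E2)
    (hu : u ≠ 0) : μH[1] (frontier K ∩ {x | inner ℝ u x = 0}) = 0 := by
  have hnhds : K ∈ 𝓝 (0 : E2) := mem_interior_iff_mem_nhds.1 h0
  have hfr : ∀ x, x ∈ frontier K ↔ gauge K x = 1 := fun x =>
    (gauge_eq_one_iff_mem_frontier hc hnhds).symm
  have : NullSingletonClass (μH[1] : Measure E2) :=
    Measure.nullSingletonClass_hausdorff E2 one_pos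
  rcases (frontier K ∩ {x | inner ℝ u x = 0}).eq_empty_or_nonempty with he | ⟨x, hx1, hx2⟩
  · rw [he]; simp
  have hx2' : inner ℝ u x = 0 := hx2
  have hxg : gauge K x = 1 := (hfr x).1 hx1
  have hx0 : x ≠ 0 := by
    rintro rfl
    rw [gauge_zero] at hxg
    exact zero_ne_one hxg
  have hsub : frontier K ∩ {x | inner ℝ u x = 0} ⊆ {x, (gauge K (-x))⁻¹ • (-x)} := by
    rintro y ⟨hy1, hy2⟩
    have hy2' : inner ℝ u y = 0 := hy2
    have hyg : gauge K y = 1 := (hfr y).1 hy1
    -- `y` is a multiple of `x`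
    obtain ⟨t, ht⟩ : ∃ t : ℝ, y = t • x := by
      rw [inner_eq] at hx2' hy2'
      have hdet : x 0 * y 1 = x 1 * y 0 := by
        have hu' : u 0 ≠ 0 ∨ u 1 ≠ 0 := by
          by_contra h
          push Not at h
          apply hu
          ext i; fin_cases i
          · simpa using h.1
          · simpa using h.2
        rcases hu' with h | h
        · have : u 0 * (x 0 * y 1 - x 1 * y 0) = 0 := by
            linear_combination y 1 * hx2' - x 1 * hy2'
          rcases mul_eq_zero.1 this with h' | h'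
          · exact absurd h' h
          · linarith
        · have : u 1 * (x 0 * y 1 - x 1 * y 0) = 0 := by
            linear_combination x 0 * hy2' - y 0 * hx2'
          rcases mul_eq_zero.1 this with h' | h'
          · exact absurd h' h
          · linarith
      by_cases hx00 : x 0 = 0
      · have hx10 : x 1 ≠ 0 := by
          intro h
          apply hx0
          ext i; fin_cases i
          · simpa using hx00
          · simpa using h
        refine ⟨y 1 / x 1, ?_⟩
        ext i; fin_cases i
        · have : y 0 = 0 := by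
            rw [hx00, zero_mul] at hdet
            rcases mul_eq_zero.1 hdet.symm with h | h
            · exact absurd h hx10
            · exact h
          simp [hx00, this]
        · simp only [Fin.mk_one, PiLp.smul_apply, smul_eq_mul]
          field_simp
      · refine ⟨y 0 / x 0, ?_⟩
        ext i; fin_cases i
        · simp only [Fin.zero_eta, PiLp.smul_apply, smul_eq_mul]
          field_simp
        · simp only [Fin.mk_one, PiLp.smul_apply, smul_eq_mul]
          field_simp
          linarith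
    rcases le_total 0 t with h | h
    · left
      rw [ht, gauge_smul_of_nonneg h, smul_eq_mul, hxg, mul_one] at hyg
      rw [ht, hyg, one_smul]
    · right
      have e : y = (-t) • (-x) := by rw [ht]; simp
      have hyg2 := hyg
      rw [e, gauge_smul_of_nonneg (by linarith), smul_eq_mul] at hyg2
      rw [mem_singleton_iff, e]
      congr 1
      exact eq_inv_of_mul_eq_one_left hyg2
  exact (Set.Finite.subset (by simp) hsub).measure_zero _

/-- The case in which the point is the origin, an interior point. -/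
theorem core (hK : IsCompact K) (hc : Convex ℝ K) (h0 : (0 : E2) ∈ interior K)
    (hyp : ∀ u : E2, u ≠ 0 → μH[1] (frontier K ∩ {x | 0 < inner ℝ u x}) =
      μH[1] (frontier K ∩ {x | inner ℝ u x < 0})) : ∀ x ∈ K, -x ∈ K := by
  have hnhds : K ∈ 𝓝 (0 : E2) := mem_interior_iff_mem_nhds.1 h0
  have hfr : ∀ x, x ∈ frontier K ↔ gauge K x = 1 := fun x =>
    (gauge_eq_one_iff_mem_frontier hc hnhds).symm
  have hmem : ∀ x, x ∈ K ↔ gauge K x ≤ 1 := fun x => by
    rw [gauge_le_one_iff_mem_closure hc hnhds, hK.isClosed.closure_eq]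
  have hcont : Continuous (gauge K) := continuous_gauge hc hnhds
  obtain ⟨hcau, hW0⟩ := cauchy hK hc ⟨0, h0⟩
  have hfin : μH[1] (frontier K) ≠ ∞ := by rw [hcau]; exact ENNReal.ofReal_ne_top
  set ν : Measure E2 := (μH[1] : Measure E2).restrict (frontier K) with hν
  have : IsFiniteMeasure ν := ⟨by
    rw [hν, Measure.restrict_apply_univ]; exact lt_of_le_of_ne le_top hfin⟩
  have hνa : ∀ S, MeasurableSet S → ν S = μH[1] (frontier K ∩ S) := fun S hS => by
    rw [hν, Measure.restrict_apply hS, inter_comm]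
  set B : Set E2 := {x | gauge K x < gauge K (-x)} with hB
  have hBm : MeasurableSet B :=
    (isOpen_lt hcont (hcont.comp continuous_neg)).measurableSet
  set B' : Set E2 := {x | gauge K (-x) < gauge K x} with hB'
  have hBm' : MeasurableSet B' :=
    (isOpen_lt (hcont.comp continuous_neg) hcont).measurableSet
  have hBneg : {x : E2 | -x ∈ B} = B' := by
    ext x; simp [hB, hB']
  have hsymm : ν B = ν B' := by
    rw [← hBneg]
    apply cone_symm ν _ _ B hBm
    · intro t ht x hx
      show gauge K (t • x) < gauge K (-(t • x))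
      rw [← smul_neg, gauge_smul_of_nonneg ht.le, gauge_smul_of_nonneg ht.le]
      exact mul_lt_mul_of_pos_left hx ht
    · intro u hu
      rw [hνa _ (measurableSet_zero u)]
      exact line_null hK hc h0 u hu
    · intro u hu
      rw [hνa _ (measurableSet_pos u), hνa _ (measurableSet_neg u)]
      exact hyp u hu
  -- the intersection of `K` and `-K`
  set L : Set E2 := K ∩ {x | -x ∈ K} with hL
  have hLc : IsCompact L := hK.inter_right (hK.isClosed.preimage continuous_neg)
  have hLconv : Convex ℝ L := by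
    apply hc.inter
    intro x hx y hy a b ha hb hab
    have h1 := hc hx hy ha hb hab
    show -(a • x + b • y) ∈ K
    rw [neg_add, ← smul_neg, ← smul_neg]
    exact h1
  have hLn : L ∈ 𝓝 (0 : E2) := by
    apply inter_mem hnhds
    have : Tendsto (fun x : E2 => -x) (𝓝 0) (𝓝 0) := by
      have := (continuous_neg (G := E2)).tendsto 0
      simpa using this
    exact this hnhds
  have hL0 : (0 : E2) ∈ interior L := mem_interior_iff_mem_nhds.2 hLn
  have hLmem : ∀ x, x ∈ L ↔ gauge K x ≤ 1 ∧ gauge K (-x) ≤ 1 := fun x => by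
    rw [hL, mem_inter_iff, mem_ofPred_eq, hmem, hmem]
  have hLint : ∀ x, x ∈ interior L ↔ gauge K x < 1 ∧ gauge K (-x) < 1 := by
    intro x
    rw [hL, interior_inter]
    have e : interior {x : E2 | -x ∈ K} = {x | -x ∈ interior K} := by
      have := (Homeomorph.neg E2).preimage_interior K
      exact this.symm
    rw [e, mem_inter_iff, mem_ofPred_eq, ← gauge_lt_one_iff_mem_interior hc hnhds,
      ← gauge_lt_one_iff_mem_interior hc hnhds]
  have hLfr : ∀ x, x ∈ frontier L ↔ max (gauge K x) (gauge K (-x)) = 1 := by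
    intro x
    rw [hLc.isClosed.frontier_eq, Set.mem_sdiff, hLmem, hLint]
    constructor
    · rintro ⟨⟨h1, h2⟩, h3⟩
      apply le_antisymm (max_le h1 h2)
      by_contra h
      push Not at h
      rw [max_lt_iff] at h
      exact h3 h
    · intro h
      refine ⟨⟨?_, ?_⟩, ?_⟩
      · rw [← h]; exact le_max_left _ _
      · rw [← h]; exact le_max_right _ _
      · rintro ⟨h1, h2⟩
        have := max_lt h1 h2
        linarith
  -- the length of the boundary of `L`
  set Z : Set E2 := {x | gauge K x = gauge K (-x)} with hZ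
  have hZm : MeasurableSet Z := (isClosed_eq hcont (hcont.comp continuous_neg)).measurableSet
  have split : ∀ μ' : Measure E2, ∀ S : Set E2, μ' S = μ' (S ∩ B) + (μ' (S ∩ B') + μ' (S ∩ Z)) := by
    intro μ' S
    rw [← measure_inter_add_sdiff S hBm]
    congr 1
    rw [← measure_inter_add_sdiff (S \ B) hBm']
    congr 2
    · ext x
      simp only [hB, hB', mem_inter_iff, Set.mem_sdiff, mem_ofPred_eq]
      constructor
      · rintro ⟨⟨h1, _⟩, h2⟩; exact ⟨h1, h2⟩
      · rintro ⟨h1, h2⟩; exact ⟨⟨h1, by linarith⟩, h2⟩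
    · ext x
      simp only [hB, hB', hZ, mem_inter_iff, Set.mem_sdiff, mem_ofPred_eq]
      constructor
      · rintro ⟨⟨h1, h2⟩, h3⟩; exact ⟨h1, by linarith⟩
      · rintro ⟨h1, h2⟩; exact ⟨⟨h1, by linarith⟩, by linarith⟩
  have i1 : frontier L ∩ B' = frontier K ∩ B' := by
    ext x
    simp only [mem_inter_iff, hLfr, hfr, hB', mem_ofPred_eq]
    constructor
    · rintro ⟨h1, h2⟩; rw [max_eq_left h2.le] at h1; exact ⟨h1, h2⟩
    · rintro ⟨h1, h2⟩; rw [max_eq_left h2.le]; exact ⟨h1, h2⟩
  have i2 : frontier L ∩ Z = frontier K ∩ Z := by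
    ext x
    simp only [mem_inter_iff, hLfr, hfr, hZ, mem_ofPred_eq]
    constructor
    · rintro ⟨h1, h2⟩; rw [max_eq_left h2.ge] at h1; exact ⟨h1, h2⟩
    · rintro ⟨h1, h2⟩; rw [max_eq_left h2.ge]; exact ⟨h1, h2⟩
  have i3 : frontier L ∩ B = (IsometryEquiv.neg E2) '' (frontier K ∩ B') := by
    ext x
    simp only [mem_inter_iff, hLfr, hB, mem_ofPred_eq, mem_image, hfr, hB']
    constructor
    · rintro ⟨h1, h2⟩
      rw [max_eq_right h2.le] at h1
      exact ⟨-x, ⟨h1, by simpa using h2⟩, by simp⟩
    · rintro ⟨y, ⟨h1, h2⟩, h3⟩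
      have h4 : x = -y := h3.symm
      subst h4
      rw [neg_neg, max_eq_right h2.le]
      exact ⟨h1, h2⟩
  have hlen : μH[1] (frontier L) = μH[1] (frontier K) := by
    rw [split _ (frontier L), split _ (frontier K), i1, i2, i3,
      IsometryEquiv.hausdorffMeasure_image]
    congr 1
    rw [← hνa _ hBm, ← hνa _ hBm', hsymm]
  obtain ⟨hcauL, hWL0⟩ := cauchy hLc hLconv ⟨0, hL0⟩
  rw [hcau, hcauL] at hlen
  have hWeq : W L = W K := by
    have := congrArg ENNReal.toReal hlen
    rwa [ENNReal.toReal_ofReal hWL0, ENNReal.toReal_ofReal hW0] at this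
  have := eq_of_W hLc hLconv ⟨0, interior_subset hL0⟩ hK inter_subset_left hWeq.ge
  intro x hx
  rw [← this] at hx
  exact hx.2

/-- If `0` is not an interior point of `K` then some line through `0` does not bisect. -/
theorem not_interior (hK : IsCompact K) (hc : Convex ℝ K) (hint : (interior K).Nonempty)
    (h0 : (0 : E2) ∉ interior K)
    (hyp : ∀ u : E2, u ≠ 0 → μH[1] (frontier K ∩ {x | 0 < inner ℝ u x}) =
      μH[1] (frontier K ∩ {x | inner ℝ u x < 0})) : False := by
  obtain ⟨f, hf⟩ := geometric_hahn_banach_open_point hc.interior isOpen_interior h0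
  obtain ⟨p, hp⟩ := hint
  set u : E2 := (InnerProductSpace.toDual ℝ E2).symm f with hu
  have hu2 : ∀ x, inner ℝ u x = f x := fun x => InnerProductSpace.toDual_symm_apply
  rw [map_zero] at hf
  have hpneg : inner ℝ u p < 0 := by rw [hu2]; exact hf p hp
  have hu0 : u ≠ 0 := by
    intro h; rw [h, inner_zero_left] at hpneg; exact lt_irrefl _ hpneg
  have hle : ∀ x ∈ K, inner ℝ u x ≤ 0 := by
    intro x hx
    have hcl : closure (interior K) = K := by
      rw [hc.closure_interior_eq_closure_of_nonempty_interior ⟨p, hp⟩, hK.isClosed.closure_eq]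
    rw [← hcl] at hx
    have hcl2 : IsClosed {z : E2 | inner ℝ u z ≤ 0} := isClosed_le (by fun_prop) continuous_const
    exact closure_minimal (fun z hz => by
      show inner ℝ u z ≤ 0
      rw [hu2]; exact (hf z hz).le) hcl2 hx
  have hfrK : frontier K ⊆ K := hK.isClosed.frontier_subset
  have hempty : frontier K ∩ {x | 0 < inner ℝ u x} = ∅ := by
    ext x
    simp only [mem_inter_iff, mem_ofPred_eq, mem_empty_iff_false, iff_false, not_and, not_lt]
    exact fun hx => hle x (hfrK hx)
  have hzero : μH[1] (frontier K ∩ {x | inner ℝ u x < 0}) = 0 := by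
    rw [← hyp u hu0, hempty]; simp
  -- projection orthogonal to `u`
  set w : E2 := !₂[-(u 1), u 0] with hw
  have hwu : inner ℝ w u = (0:ℝ) := by rw [inner_eq]; simp [hw]; ring
  have huw : inner ℝ u w = (0:ℝ) := by rw [real_inner_comm]; exact hwu
  have hw0 : w ≠ 0 := by
    intro h
    apply hu0
    have h1 := congrArg (fun p : E2 => p 0) h
    have h2 := congrArg (fun p : E2 => p 1) h
    simp only [hw, PiLp.toLp_apply, Matrix.cons_val_zero, Matrix.cons_val_one, PiLp.zero_apply,
      Matrix.cons_val_fin_one] at h1 h2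
    ext i; fin_cases i
    · simpa using h2
    · simpa using h1
  have hwn : 0 < ‖w‖ := norm_pos_iff.2 hw0
  set π : E2 → ℝ := fun x => inner ℝ w x with hπ
  have hπl : LipschitzWith (Real.toNNReal ‖w‖) π := by
    apply LipschitzWith.of_dist_le_mul
    intro x y
    rw [Real.dist_eq, hπ]
    simp only
    rw [← inner_sub_right, dist_eq_norm, Real.coe_toNNReal _ hwn.le]
    exact abs_real_inner_le_norm _ _
  obtain ⟨ρ, hρ, hball⟩ := Metric.isOpen_iff.1 isOpen_interior p hp
  obtain ⟨R, hR⟩ := hK.isBounded.subset_closedBall 0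
  have himg : Ioo (π p) (π p + ρ * ‖w‖) ⊆ π '' (frontier K ∩ {x | inner ℝ u x < 0}) := by
    intro a ha
    set t : ℝ := (a - π p) / ‖w‖ ^ 2 with ht
    have ht0 : 0 < t := div_pos (by linarith [ha.1]) (by positivity)
    have ht1 : t * ‖w‖ < ρ := by
      rw [ht, div_mul_eq_mul_div, div_lt_iff₀ (by positivity)]
      have := ha.2
      nlinarith
    set q : E2 := p + t • w with hq
    have hqK : q ∈ interior K := by
      apply hball
      rw [Metric.mem_ball, dist_eq_norm, hq, add_sub_cancel_left, norm_smul, Real.norm_of_nonneg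
        ht0.le]
      exact ht1
    have hqneg : inner ℝ u q < 0 := by rw [hu2]; exact hf q hqK
    have hπq : π q = a := by
      simp only [hπ, hq]
      rw [inner_add_right, real_inner_smul_right, real_inner_self_eq_norm_sq, ht]
      field_simp
      simp only [hπ]
      ring
    -- exit point of the ray
    set T : Set ℝ := {r | 0 ≤ r ∧ q - r • u ∈ K} with hT
    have hun : 0 < ‖u‖ := norm_pos_iff.2 hu0
    have hTne : T.Nonempty := ⟨0, le_rfl, by simpa using interior_subset hqK⟩
    have hTcl : IsClosed T := by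
      apply IsClosed.inter isClosed_Ici
      exact hK.isClosed.preimage (by fun_prop)
    have hTb : BddAbove T := by
      refine ⟨(R + ‖q‖) / ‖u‖, ?_⟩
      rintro r ⟨hr0, hr⟩
      rw [le_div_iff₀ hun]
      have h1 : ‖q - r • u‖ ≤ R := mem_closedBall_zero_iff.1 (hR hr)
      have h2 : ‖r • u‖ ≤ ‖q‖ + ‖q - r • u‖ := by
        have : r • u = q - (q - r • u) := by abel
        calc ‖r • u‖ = ‖q - (q - r • u)‖ := by rw [← this]
          _ ≤ ‖q‖ + ‖q - r • u‖ := norm_sub_le _ _
      rw [norm_smul, Real.norm_of_nonneg hr0] at h2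
      linarith
    set r := sSup T with hr
    have hrT : r ∈ T := hTcl.csSup_mem hTne hTb
    set z := q - r • u with hz
    have hzint : z ∉ interior K := by
      intro h
      obtain ⟨δ, hδ, hb⟩ := Metric.isOpen_iff.1 isOpen_interior z h
      have hmem : r + δ / (2 * ‖u‖) ∈ T := by
        have hr0 : 0 ≤ r := hrT.1
        refine ⟨by positivity, interior_subset (hb ?_)⟩
        rw [Metric.mem_ball, dist_eq_norm]
        have e : q - (r + δ / (2 * ‖u‖)) • u - z = -((δ / (2 * ‖u‖)) • u) := by
          rw [hz, add_smul]; abel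
        rw [e, norm_neg, norm_smul, Real.norm_of_nonneg (by positivity)]
        have : δ / (2 * ‖u‖) * ‖u‖ = δ / 2 := by field_simp
        rw [this]; linarith
      have := le_csSup hTb hmem
      have h3 : 0 < δ / (2 * ‖u‖) := by positivity
      linarith
    refine ⟨z, ⟨⟨subset_closure hrT.2, hzint⟩, ?_⟩, ?_⟩
    · show inner ℝ u z < 0
      rw [hz, inner_sub_right, real_inner_smul_right, real_inner_self_eq_norm_sq]
      have : 0 ≤ r * ‖u‖ ^ 2 := mul_nonneg hrT.1 (by positivity)
      linarith
    · show inner ℝ w z = a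
      rw [hz, inner_sub_right, real_inner_smul_right, hwu, mul_zero, sub_zero]
      exact hπq
  have h1 : volume (Ioo (π p) (π p + ρ * ‖w‖)) ≤ 0 := by
    rw [← hausdorffMeasure_real]
    refine (measure_mono himg).trans ?_
    refine (hπl.hausdorffMeasure_image_le zero_le_one _).trans ?_
    rw [hzero, mul_zero]
  rw [Real.volume_Ioo] at h1
  have h2 : 0 < π p + ρ * ‖w‖ - π p := by
    have : 0 < ρ * ‖w‖ := by positivity
    linarith
  have h3 : 0 < ENNReal.ofReal (π p + ρ * ‖w‖ - π p) := ENNReal.ofReal_pos.2 h2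
  exact absurd h1 (not_le.2 h3)

/-- **Klamkin's question.** -/
theorem main (hK : IsCompact K) (hc : Convex ℝ K) (hint : (interior K).Nonempty) (O : E2)
    (hyp : ∀ u : E2, u ≠ 0 → μH[1] (frontier K ∩ {x | 0 < inner ℝ u (x - O)}) =
      μH[1] (frontier K ∩ {x | inner ℝ u (x - O) < 0})) :
    O ∈ interior K ∧ (fun x => (2 : ℝ) • O - x) '' K = K ∧
      (fun x => (2 : ℝ) • O - x) '' frontier K = frontier K := by
  set f : E2 ≃ᵢ E2 := IsometryEquiv.addRight (-O) with hf
  have hfx : ∀ x, f x = x - O := fun x => by simp [hf, sub_eq_add_neg]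
  set K' : Set E2 := f '' K with hK'
  have hKc' : IsCompact K' := hK.image f.continuous
  have hc' : Convex ℝ K' := by
    have h1 := hc.translate (-O)
    have h2 : K' = (fun x => -O + x) '' K := by
      rw [hK']
      apply image_congr
      intro x _
      rw [hfx]; abel
    rw [h2]; exact h1
  have hfr' : frontier K' = f '' frontier K := (f.toHomeomorph.image_frontier K).symm
  have hin' : interior K' = f '' interior K := (f.toHomeomorph.image_interior K).symm
  have hyp' : ∀ u : E2, u ≠ 0 → μH[1] (frontier K' ∩ {x | 0 < inner ℝ u x}) =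
      μH[1] (frontier K' ∩ {x | inner ℝ u x < 0}) := by
    intro u hu
    have e1 : frontier K' ∩ {x | 0 < inner ℝ u x} =
        f '' (frontier K ∩ {x | 0 < inner ℝ u (x - O)}) := by
      rw [hfr']
      ext x
      constructor
      · rintro ⟨⟨y, hy, rfl⟩, h⟩
        exact ⟨y, ⟨hy, by simpa [hfx] using h⟩, rfl⟩
      · rintro ⟨y, ⟨hy, h⟩, rfl⟩
        exact ⟨⟨y, hy, rfl⟩, by simpa [hfx] using h⟩
    have e2 : frontier K' ∩ {x | inner ℝ u x < 0} =
        f '' (frontier K ∩ {x | inner ℝ u (x - O) < 0}) := by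
      rw [hfr']
      ext x
      constructor
      · rintro ⟨⟨y, hy, rfl⟩, h⟩
        exact ⟨y, ⟨hy, by simpa [hfx] using h⟩, rfl⟩
      · rintro ⟨y, ⟨hy, h⟩, rfl⟩
        exact ⟨⟨y, hy, rfl⟩, by simpa [hfx] using h⟩
    rw [e1, e2, IsometryEquiv.hausdorffMeasure_image, IsometryEquiv.hausdorffMeasure_image]
    exact hyp u hu
  have h0 : (0 : E2) ∈ interior K' := by
    by_contra h
    exact not_interior hKc' hc' (by rw [hin']; exact hint.image _) h hyp'
  have hsym := core hKc' hc' h0 hyp'
  have hsymK : ∀ x ∈ K, (2 : ℝ) • O - x ∈ K := by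
    intro x hx
    obtain ⟨y, hy, he⟩ := hsym (f x) ⟨x, hx, rfl⟩
    rw [hfx, hfx] at he
    have : (2 : ℝ) • O - x = y := by
      have h1 : y = -(x - O) + O := by rw [← he]; abel
      rw [h1, two_smul]; abel
    rw [this]; exact hy
  have hinv : ∀ x : E2, (2 : ℝ) • O - ((2 : ℝ) • O - x) = x := fun x => by abel
  have himK : (fun x => (2 : ℝ) • O - x) '' K = K := by
    apply Subset.antisymm
    · rintro _ ⟨x, hx, rfl⟩; exact hsymK x hx
    · intro x hx; exact ⟨_, hsymK x hx, hinv x⟩
  refine ⟨?_, himK, ?_⟩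
  · rw [hin'] at h0
    obtain ⟨x, hx, he⟩ := h0
    rw [hfx, sub_eq_zero] at he
    rwa [← he]
  · set e : E2 ≃ᵢ E2 := IsometryEquiv.subLeft ((2 : ℝ) • O) with he
    have h1 : (e : E2 → E2) = fun x => (2 : ℝ) • O - x := rfl
    have h2 := e.toHomeomorph.image_frontier K
    have h3 : (e.toHomeomorph : E2 → E2) = fun x => (2 : ℝ) • O - x := rfl
    rw [h3, himK] at h2
    exact h2

end Pool.Agent.N545.KL
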